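import Pool.Agent.Lib.helper5.Kap1

open Filter Topology Set Cardinal

namespace Pool.Agent.Results.MP_3edc48_gt.NonM

/-- `C_p(X)`: continuous real functions with the topology of pointwise convergence. -/
abbrev Cp (X : Type) [TopologicalSpace X] : Type := {f : X → ℝ // Continuous f}

/-- `κ`-Fréchet spaces. -/
def KappaFrechet (Y : Type) [TopologicalSpace Y] : Prop :=
  ∀ (x : Y) (U : Set Y), IsOpen U → x ∈ closure U → x ∉ U →
    ∃ B ⊆ U, B.Countable ∧ B.Infinite ∧ x ∉ B ∧ ∀ V ∈ 𝓝 x, (B \ V).Finite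

/-- `non(M)`: the least cardinality of a non-meagre set of reals. -/
noncomputable def nonM : Cardinal.{0} := sInf {c | ∃ A : Set ℝ, ¬ IsMeagre A ∧ #A = c}

lemma ev {X : Type} [TopologicalSpace X] (x : X) : Continuous fun f : Cp X => f.1 x :=
  (continuous_apply x).comp continuous_subtype_val

lemma supp {X : Type} [TopologicalSpace X] {U : Set (Cp X)} (hU : IsOpen U) {g : Cp X}
    (hg : g ∈ U) : ∃ S : Finset X, ∀ h : Cp X, (∀ x ∈ S, h.1 x = g.1 x) → h ∈ U := by
  obtain ⟨V, hV, rfl⟩ := isOpen_induced_iff.1 hU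
  obtain ⟨I, u, h1, h2⟩ := isOpen_pi_iff.1 hV g.1 hg
  exact ⟨I, fun h hh => h2 fun x hx => by rw [hh x hx]; exact (h1 x hx).2⟩

lemma lower {X : Type} [MetricSpace X] (hs : ∀ φ : X × X → ℝ, IsMeagre (range φ)) :
    KappaFrechet (Cp X) := by
  classical
  intro f U hU hf hfU
  have h1 : ∀ (E : Finset X) (n : ℕ), ∃ g ∈ U, (∀ x ∈ E, |g.1 x - f.1 x| < 1 / ((n : ℝ) + 1)) ∧
      ∃ S : Finset X, ∀ h : Cp X, (∀ x ∈ S, h.1 x = g.1 x) → h ∈ U := by
    intro E n
    have ho : IsOpen {g : Cp X | ∀ x ∈ E, |g.1 x - f.1 x| < 1 / ((n : ℝ) + 1)} := by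
      simp only [ofPred_forall]
      exact isOpen_biInter_finset fun x _ => isOpen_lt ((ev x).sub continuous_const).abs continuous_const
    obtain ⟨g, hg1, hg2⟩ := mem_closure_iff.1 hf _ ho (fun x _ => by
      rw [sub_self, abs_zero]; positivity)
    exact ⟨g, hg2, hg1, supp hU hg2⟩
  choose g hgU hgE S hS using h1
  let E : ℕ → Finset X := fun n => Nat.rec ∅ (fun n E => E ∪ S E n) n
  have hE : ∀ n, E (n + 1) = E n ∪ S (E n) n := fun n => rfl
  have hEm : Monotone E := monotone_nat_of_le_succ fun n => by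
    rw [hE]; exact Finset.subset_union_left
  have hdis : ∀ i j p, i < j → p ∈ S (E i) i \ E i → p ∈ S (E j) j \ E j → False := by
    intro i j p hij hi hj
    refine (Finset.mem_sdiff.1 hj).2 (hEm (Nat.succ_le_of_lt hij) ?_)
    rw [hE]; exact Finset.mem_union_right _ (Finset.mem_sdiff.1 hi).1
  obtain ⟨a, ε, ha, hε, h⟩ := H5K.kappa hs (fun n => S (E n) n \ E n) fun i j p hi hj => by
    rcases lt_trichotomy i j with h | h | h
    · exact (hdis i j p h hi hj).elim
    · exact h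
    · exact (hdis j i p h hj hi).elim
  have h2 : ∀ k, ∃ u ∈ U, ∀ x, (∀ p ∈ S (E (a k)) (a k) \ E (a k), ε k ≤ dist x p) →
      |u.1 x - f.1 x| ≤ 1 / ((a k : ℝ) + 1) := by
    intro k
    set n := a k
    have hc : IsClosed {x | ∀ p ∈ S (E n) n \ E n, ε k ≤ dist x p} := by
      simp only [ofPred_forall]
      exact isClosed_iInter fun p => isClosed_iInter fun _ => isClosed_le continuous_const (by fun_prop)
    obtain ⟨ρ, h0, h1, -⟩ := exists_continuous_zero_one_of_isClosed hc
      (S (E n) n \ E n).finite_toSet.isClosed (Set.disjoint_left.2 fun x hx hx' => by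
        have := hx x hx'
        rw [dist_self] at this
        linarith [hε k])
    set η : ℝ := 1 / ((n : ℝ) + 1) with hη
    have hη0 : 0 < η := by positivity
    have hg := (g (E n) n).2
    have hf := f.2
    let c : X → ℝ := fun x => max (-η) (min η ((g (E n) n).1 x - f.1 x))
    have hcc : Continuous c := by fun_prop
    refine ⟨⟨fun x => f.1 x + c x + ρ x * ((g (E n) n).1 x - f.1 x - c x), by fun_prop⟩,
      hS (E n) n _ fun x hx => ?_, fun x hx => ?_⟩
    · rcases em (x ∈ E n) with hxE | hxE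
      · have := abs_lt.1 (hgE (E n) n x hxE)
        have e : c x = (g (E n) n).1 x - f.1 x := by
          simp only [c]; rw [min_eq_right this.2.le, max_eq_right this.1.le]
        simp only [e]; ring
      · have := h1 (Finset.mem_coe.2 (Finset.mem_sdiff.2 ⟨hx, hxE⟩))
        simp only [this, Pi.one_apply]; ring
    · have := h0 hx
      simp only [this, Pi.zero_apply, zero_mul, add_zero, add_sub_cancel_left]
      exact abs_le.2 ⟨le_max_left _ _, max_le (by linarith) (min_le_left _ _)⟩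
  choose u huU hu using h2
  have hlim : Tendsto u atTop (𝓝 f) := by
    rw [tendsto_subtype_rng, tendsto_pi_nhds]
    intro x
    rw [tendsto_iff_norm_sub_tendsto_zero]
    refine squeeze_zero' (Eventually.of_forall fun _ => norm_nonneg _)
      ((h x).mono fun k hk => hu k x hk) (tendsto_one_div_add_atTop_nhds_zero_nat.comp ha)
  have hfB : f ∉ range u := fun ⟨k, hk⟩ => hfU (hk ▸ huU k)
  refine ⟨range u, range_subset_iff.2 huU, countable_range _, fun hfin => ?_, hfB, fun V hV => ?_⟩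
  · obtain ⟨k, hk⟩ := (hlim.eventually (hfin.isClosed.isOpen_compl.mem_nhds hfB)).exists
    exact hk (mem_range_self k)
  · have := hlim.eventually hV
    rw [← Nat.cofinite_eq_atTop, eventually_cofinite] at this
    refine (this.image u).subset ?_
    rintro _ ⟨⟨k, rfl⟩, hk⟩
    exact ⟨k, hk, rfl⟩

lemma upper {X : Set ℝ} (hX : ¬ IsMeagre X) : ¬ KappaFrechet (Cp X) := by
  classical
  intro hK
  have hO : (interior (closure X)).Nonempty := by
    by_contra h
    exact hX (IsNowhereDense.isMeagre (not_nonempty_iff_eq_empty.1 h))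
  have hb := TopologicalSpace.isBasis_countableBasis ℝ
  have hbase : ∀ W : Set ℝ, IsOpen W → W.Nonempty → W ⊆ closure X →
      ∃ v ∈ {v ∈ TopologicalSpace.countableBasis ℝ | v ⊆ closure X}, v ⊆ W := by
    rintro W hW ⟨x, hx⟩ hWX
    obtain ⟨v, hv, -, h⟩ := hb.exists_subset_of_mem_open hx hW
    exact ⟨v, ⟨hv, h.trans hWX⟩, h⟩
  obtain ⟨V, hV⟩ := ((TopologicalSpace.countable_countableBasis ℝ).mono
    (sep_subset _ fun v => v ⊆ closure X)).exists_eq_range
    (by obtain ⟨v, hv, -⟩ := hbase _ isOpen_interior hO interior_subset; exact ⟨v, hv⟩)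
  have hVi : ∀ i, V i ∈ {v ∈ TopologicalSpace.countableBasis ℝ | v ⊆ closure X} :=
    fun i => hV ▸ mem_range_self i
  have hpick : ∀ (T : Finset X) (m : ℕ), ∃ x : X, x ∉ T ∧ x.1 ∈ V m.unpair.1 := by
    intro T m
    have ho := hb.isOpen (hVi m.unpair.1).1
    obtain ⟨x, hx⟩ := TopologicalSpace.nonempty_of_mem_countableBasis (hVi m.unpair.1).1
    have hfin : (Subtype.val '' (T : Set X)).Finite := T.finite_toSet.image _
    obtain ⟨y, hy1, hy2⟩ := ((infinite_of_mem_nhds x (ho.mem_nhds hx)).sdiff hfin).nonempty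
    obtain ⟨z, hz1, hz2⟩ := mem_closure_iff.1 ((hVi _).2 hy1) _ (ho.sdiff hfin.isClosed) ⟨hy1, hy2⟩
    exact ⟨⟨z, hz2⟩, fun h => hz1.2 ⟨_, h, rfl⟩, hz1.1⟩
  choose pk hpk1 hpk2 using hpick
  let T : ℕ → Finset X := fun n => Nat.rec ∅ (fun n T => insert (pk T n) T) n
  have hT : ∀ n, T (n + 1) = insert (pk (T n) n) (T n) := fun n => rfl
  have hTm : Monotone T := monotone_nat_of_le_succ fun n => by
    rw [hT]; exact Finset.subset_insert _ _
  let q : ℕ → X := fun m => pk (T m) m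
  have hq : Function.Injective q := by
    refine Function.Injective.of_lt_imp_ne fun i j hij h => hpk1 (T j) j ?_
    have : q i ∈ T (i + 1) := by rw [hT]; exact Finset.mem_insert_self _ _
    have h' := hTm (Nat.succ_le_of_lt hij) this
    rw [h] at h'
    exact h'
  let W : Set (Cp X) := {f | ∃ n, ∀ i ∈ Finset.range (n + 1), 1 < f.1 (q (Nat.pair i n))}
  let o : Cp X := ⟨0, continuous_zero⟩
  have hWo : IsOpen W := by
    simp only [W, ofPred_exists, ofPred_forall]
    exact isOpen_iUnion fun n => isOpen_biInter_finset fun i _ =>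
      isOpen_lt continuous_const (ev _)
  have hcl : o ∈ closure W := by
    refine mem_closure_iff.2 fun N hN ho => ?_
    obtain ⟨S, hS⟩ := supp hN ho
    have hfin : ((fun m => m.unpair.2) '' (q ⁻¹' (S : Set X))).Finite :=
      (S.finite_toSet.preimage hq.injOn).image _
    obtain ⟨n, hn⟩ := hfin.infinite_compl.nonempty
    obtain ⟨ρ, h0, h1, -⟩ := exists_continuous_zero_one_of_isClosed S.finite_toSet.isClosed
      ((Finset.range (n + 1)).image fun i => q (Nat.pair i n)).finite_toSet.isClosed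
      (Set.disjoint_left.2 fun x hx hx' => by
        obtain ⟨i, -, rfl⟩ := Finset.mem_image.1 hx'
        exact hn ⟨_, hx, by simp⟩)
    refine ⟨⟨fun x => 2 * ρ x, by fun_prop⟩, hS _ fun x hx => ?_, n, fun i hi => ?_⟩
    · simp [h0 hx, o]
    · have := h1 (Finset.mem_coe.2 (Finset.mem_image_of_mem _ hi))
      simp [this]
  obtain ⟨B, hBW, -, hBi, -, hBV⟩ := hK o W hWo hcl fun ⟨n, hn⟩ => by
    have := hn 0 (by simp)
    simp [o] at this
    linarith
  have hfin : ∀ x : X, {f ∈ B | 1 < f.1 x}.Finite := fun x => by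
    refine (hBV {f | f.1 x < 1} ((isOpen_lt (ev x) continuous_const).mem_nhds
      (by simp [o]))).subset fun f hf => ⟨hf.1, fun h => lt_asymm hf.2 h⟩
  have h1 : ∀ f : Cp X, ∃ n, f ∈ B → ∀ i ∈ Finset.range (n + 1), 1 < f.1 (q (Nat.pair i n)) := by
    intro f
    by_cases hf : f ∈ B
    · obtain ⟨n, hn⟩ := hBW hf
      exact ⟨n, fun _ => hn⟩
    · exact ⟨0, fun h => absurd h hf⟩
  choose ν hν using h1
  have h2 : ∀ N, ∃ f ∈ B, N ≤ ν f := fun N => by
    by_contra hc
    push Not at hc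
    refine hBi (((Finset.range N).finite_toSet.biUnion fun n _ => hfin (q (Nat.pair 0 n))).subset
      fun f hf => mem_biUnion (Finset.mem_coe.2 (Finset.mem_range.2 (hc f hf)))
        ⟨hf, hν f hf 0 (by simp)⟩)
  have h3 : ∀ f : Cp X, ∃ G : Set ℝ, IsOpen G ∧ Subtype.val ⁻¹' G = {x : X | 1 < f.1 x} :=
    fun f => isOpen_induced_iff.1 (isOpen_lt continuous_const f.2)
  choose G hGo hG using h3
  let H : ℕ → Set ℝ := fun N => (⋃ f ∈ {f ∈ B | N ≤ ν f}, G f) ∪ (closure X)ᶜ
  have hH : ∀ N, H N ∈ residual ℝ := fun N => by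
    refine residual_of_dense_open ((isOpen_biUnion fun f _ => hGo f).union
      isClosed_closure.isOpen_compl) (dense_iff_inter_open.2 fun W hW hne => ?_)
    by_cases hWX : W ⊆ closure X
    · obtain ⟨v, hv, hvW⟩ := hbase W hW hne hWX
      rw [hV] at hv
      obtain ⟨i, rfl⟩ := hv
      obtain ⟨f, hf, hN⟩ := h2 (max N i)
      have h4 := hpk2 (T (Nat.pair i (ν f))) (Nat.pair i (ν f))
      rw [Nat.unpair_pair] at h4
      refine ⟨_, hvW h4, Or.inl (mem_biUnion (x := f) ⟨hf, le_of_max_le_left hN⟩ ?_)⟩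
      have h5 : q (Nat.pair i (ν f)) ∈ Subtype.val ⁻¹' G f := by
        rw [hG]; exact hν f hf i (by simp; omega)
      exact h5
    · obtain ⟨x, hx1, hx2⟩ := not_subset.1 hWX
      exact ⟨x, hx1, Or.inr hx2⟩
  apply hX
  refine mem_of_superset (countable_iInter_mem.2 hH) fun x hx hxX => ?_
  obtain ⟨N, hN⟩ := ((hfin ⟨x, hxX⟩).image ν).bddAbove
  rcases mem_iInter.1 hx (N + 1) with h | h
  · obtain ⟨f, hf, hx⟩ := mem_iUnion₂.1 h
    have h5 : (⟨x, hxX⟩ : X) ∈ Subtype.val ⁻¹' G f := hx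
    rw [hG] at h5
    have := hN ⟨f, ⟨hf.1, h5⟩, rfl⟩
    have := hf.2
    omega
  · exact h (subset_closure hxX)

theorem result : IsLeast {c | ∃ X : Set ℝ, ¬ KappaFrechet (Cp X) ∧ #X = c} nonM := by
  have hne : {c | ∃ A : Set ℝ, ¬ IsMeagre A ∧ #A = c}.Nonempty :=
    ⟨_, univ, not_isMeagre_of_isOpen isOpen_univ univ_nonempty, rfl⟩
  obtain ⟨A, hA, hc⟩ := csInf_mem hne
  refine ⟨⟨A, upper hA, hc⟩, ?_⟩
  rintro _ ⟨X, hX, rfl⟩
  by_contra hlt
  rw [not_le] at hlt
  refine hX (lower fun φ => ?_)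
  by_contra hm
  have h1 : nonM ≤ #(range φ) := csInf_le' ⟨_, hm, rfl⟩
  have h2 : ℵ₀ ≤ nonM := by
    by_contra h
    rw [not_le, nonM, ← hc, lt_aleph0_iff_set_finite] at h
    refine hA (IsNowhereDense.isMeagre ?_)
    rw [h.isClosed.isNowhereDense_iff]
    by_contra hne
    obtain ⟨x, hx⟩ := nonempty_iff_ne_empty.2 hne
    exact infinite_of_mem_nhds x (mem_interior_iff_mem_nhds.1 hx) h
  have h3 : #(range φ) < nonM := by
    refine mk_range_le.trans_lt ?_
    rw [mk_prod, lift_id]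
    exact mul_lt_of_lt h2 hlt hlt
  exact absurd h1 (not_le.2 h3)

end Pool.Agent.Results.MP_3edc48_gt.NonM
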